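import Pool.Agent.TBP.StmtsA

/-!
# Squad TBP, row CNT: residue classes
-/

set_option autoImplicit false

namespace Pool.Agent.TBP.H62

open Finset

/-- **Row CNT**. -/
theorem cnt : CntStmt := by
  intro p m A B σ hp hA hσ hm
  have : Fact p.Prime := ⟨hp⟩
  have hA0 : (A : ZMod p) ≠ 0 := by
    rw [Ne, ZMod.intCast_zmod_eq_zero_iff_dvd]
    exact hA
  have hσ0 : (σ : ZMod p) ≠ 0 := by
    rcases hσ with rfl | rfl <;> simp
  have hiff : ∀ s k : ℕ, (p : ℤ) ∣ A * s + B + σ * k ↔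
      (s : ZMod p) = -((B : ZMod p) + σ * k) * (A : ZMod p)⁻¹ := by
    intro s k
    rw [← ZMod.intCast_zmod_eq_zero_iff_dvd, eq_mul_inv_iff_mul_eq₀ hA0]
    push_cast
    constructor
    · intro h
      linear_combination h
    · intro h
      linear_combination h
  have hset : (range p).filter (fun s : ℕ => ∃ k ∈ Icc 1 m, (p : ℤ) ∣ A * s + B + σ * k) =
      (Icc 1 m).image (fun k : ℕ => (-((B : ZMod p) + σ * k) * (A : ZMod p)⁻¹).val) := by
    ext s
    rw [mem_filter, mem_range, mem_image]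
    constructor
    · rintro ⟨hs, k, hk, hd⟩
      refine ⟨k, hk, ?_⟩
      rw [hiff] at hd
      rw [← hd, ZMod.val_natCast, Nat.mod_eq_of_lt hs]
    · rintro ⟨k, hk, rfl⟩
      refine ⟨ZMod.val_lt _, k, hk, ?_⟩
      rw [hiff, ZMod.natCast_zmod_val]
  rw [hset, card_image_of_injOn, Nat.card_Icc, Nat.add_sub_cancel]
  intro k hk k' hk' h
  rw [mem_coe, mem_Icc] at hk hk'
  have h1 := ZMod.val_injective p h
  have h2 := mul_right_cancel₀ (inv_ne_zero hA0) h1
  have h3 : (σ : ZMod p) * k = σ * k' := by linear_combination -h2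
  have h4 : ((k : ℕ) : ZMod p) = ((k' : ℕ) : ZMod p) := mul_left_cancel₀ hσ0 h3
  rw [ZMod.natCast_eq_natCast_iff', Nat.mod_eq_of_lt (by omega), Nat.mod_eq_of_lt (by omega)] at h4
  exact h4

end Pool.Agent.TBP.H62
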